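import Pool.Agent.W580.SH.StmB

/-! Project SH (MP_ba6ea3_co), part SH-NORM: normalisation by negating rows. -/

namespace Pool.Agent.W389.SH

open Pool.Agent.W580.SH

theorem main : S_NORM := by
  classical
  intro R _ _ I S hI hc hts
  rcases S.eq_empty_or_nonempty with rfl | ⟨x0, hx0⟩
  · refine ⟨∅, fun _ => 0, rfl, hts, by simp, ?_, by simp, by simp⟩
    intro r
    norm_num
  set f : R → ℝ := fun r => Int.fract (x0 r) with hf
  set ε : R → ℝ := fun r => if f r ≤ 1 / 2 then 1 else -1 with hε
  set t : R → ℝ := fun r => if f r ≤ 1 / 2 then f r else 1 - f r with ht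
  have hεabs : ∀ r, |ε r| = 1 := by
    intro r
    simp only [hε]
    split_ifs <;> simp
  have hεne : ∀ r, ε r ≠ 0 := by
    intro r h
    have := hεabs r
    rw [h] at this
    simp at this
  set g : (R → ℝ) → (R → ℝ) := fun x r => ε r * x r with hg
  have hginj : Function.Injective g := by
    intro x y hxy
    funext r
    have := congrFun hxy r
    simp only [hg] at this
    exact mul_left_cancel₀ (hεne r) this
  have hf0 : ∀ r, 0 ≤ f r := fun r => Int.fract_nonneg _
  have hf1 : ∀ r, f r < 1 := fun r => Int.fract_lt_one _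
  have ht01 : ∀ r, 0 ≤ t r ∧ t r ≤ 1 / 2 := by
    intro r
    have h0 := hf0 r
    have h1 := hf1 r
    simp only [ht]
    split_ifs with h
    · exact ⟨h0, h⟩
    · push Not at h
      constructor <;> linarith
  -- minors
  have hmn : ∀ (k : ℕ) (r : Fin k → R) (x : Fin k → (R → ℝ)),
      mn r (fun j => g (x j)) = (∏ a, ε (r a)) * mn r x := by
    intro k r x
    unfold mn
    rw [← Matrix.det_mul_column]
    rfl
  have hTS : TS1 ((S.image g : Finset (R → ℝ)) : Set (R → ℝ)) := by
    intro k r c hcj
    have h1 : ∀ j, ∃ x ∈ S, g x = c j := by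
      intro j
      have := hcj j
      simpa using this
    choose x hx hxc using h1
    have h2 : c = fun j => g (x j) := by
      funext j
      exact (hxc j).symm
    rw [h2, hmn, abs_mul, Finset.abs_prod]
    have h3 : ∏ a, |ε (r a)| = 1 := Finset.prod_eq_one (fun a _ => hεabs (r a))
    rw [h3, one_mul]
    exact hts k r x (fun j => hx j)
  have habs : ∀ x ∈ S, ∀ r, |x r| ≤ 1 := by
    intro x hx r
    have := hts 1 (fun _ => r) (fun _ => x) (fun _ => hx)
    unfold mn at this
    simpa using this
  -- ε r * x r ≡ t r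
  have hmod : ∀ x ∈ S, ∀ r, ∃ m : ℤ, ε r * x r = t r + m := by
    intro x hx r
    obtain ⟨n, hn⟩ := hc x hx x0 hx0 r
    have hfl : x0 r = ⌊x0 r⌋ + f r := (Int.floor_add_fract (x0 r)).symm
    simp only [hε, ht]
    split_ifs with h
    · refine ⟨n + ⌊x0 r⌋, ?_⟩
      push_cast
      linarith
    · refine ⟨-(n + ⌊x0 r⌋) - 1, ?_⟩
      push_cast
      linarith
  refine ⟨S.image g, t, Finset.card_image_of_injective _ hginj, hTS, ?_, ht01, ?_, ?_⟩
  · intro y hy r hr
    obtain ⟨x, hx, rfl⟩ := Finset.mem_image.mp hy
    simp only [hg]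
    rw [hI x hx r hr, mul_zero]
  · intro r hr
    have h0 : f r = 0 := by
      simp only [hf]
      rw [hI x0 hx0 r hr]
      simp
    simp only [ht, h0]
    norm_num
  · intro y hy r
    obtain ⟨x, hx, rfl⟩ := Finset.mem_image.mp hy
    obtain ⟨m, hm⟩ := hmod x hx r
    constructor
    · intro h0
      refine ⟨m, ?_⟩
      simp only [hg]
      rw [hm, h0, zero_add]
    · intro hpos
      simp only [hg]
      have h1 : |ε r * x r| ≤ 1 := by
        rw [abs_mul, hεabs, one_mul]
        exact habs x hx r
      rw [hm] at h1 ⊢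
      have h2 := abs_le.mp h1
      have h3 := (ht01 r).2
      have hmu : m < 1 := by
        have : (m : ℝ) < 1 := by linarith [h2.2]
        exact_mod_cast this
      have hml : -2 < m := by
        have : (-2 : ℝ) < m := by linarith [h2.1]
        exact_mod_cast this
      have hm2 : m = 0 ∨ m = -1 := by omega
      rcases hm2 with rfl | rfl
      · left
        simp
      · right
        push_cast
        ring

end Pool.Agent.W389.SH
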